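import Pool.Agent.Y522.ML.Var

/-!
# MP_3dbb84_gt, Q1: Lagrangian submanifolds of the cotangent bundle of the torus which are one-sided
with respect to a field of symmetric matrices

Q1 asks whether every closed exact Lagrangian submanifold `L` of the cotangent bundle of a closed
manifold `N` is the image of the zero section under a symplectic diffeomorphism.  The theorem gives
a condition on `L` for the torus `N = ℝⁿ/ℤⁿ`, in all dimensions: it is enough that for some smooth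
field `B` of symmetric matrices on the torus and some `b, δ > 0` and `C` the inequalities
`⟪q - q', B(q) (p - p')⟫ ≥ -C ‖q - q'‖²` and `b ‖p - p'‖ ≤ ‖B(q) (p - p')‖ + C ‖q - q'‖`
hold for all pairs of points `(q, p)`, `(q', p')` of the preimage of `L` in `ℝⁿ × ℝⁿ` with
`‖q - q'‖ < δ`.  The second one is automatic if all `B(q)` are invertible.  The submanifold `L` need
not be exact, need not be a graph over the torus and need not be known to be diffeomorphic to the
torus: it may have vertical tangencies and contain vertical segments.  For `B = 1` it is the graph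
of the (multivalued) derivative of a semiconvex function; with a variable `B` it may be semiconvex
over a part of the torus and semiconcave over another one.

The method: for small `t` the symplectic diffeomorphism with the generating function
`t ⟪B(x) p, p⟫ / 2` (in mixed variables, cut off for large `p`) moves `L` to a graph over the torus.
-/

set_option autoImplicit false

open Set Function
open scoped ContDiff RealInnerProductSpace

noncomputable section

namespace Pool.Agent.Results.MP_3dbb84_gt.LocallyOneSidedLagrangians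

/-- the integer vector `k` -/
def latt {n : ℕ} (k : Fin n → ℤ) : EuclideanSpace ℝ (Fin n) := WithLp.toLp 2 (fun i => (k i : ℝ))

/-- the symplectic form `dp ∧ dq` of `ℝⁿ × ℝⁿ`; the points and the vectors are pairs `(q, p)` -/
def om {n : ℕ} (a b : EuclideanSpace ℝ (Fin n) × EuclideanSpace ℝ (Fin n)) : ℝ :=
  ⟪a.2, b.1⟫ - ⟪b.2, a.1⟫

/-- `F : ℝⁿ → ℝⁿ × ℝⁿ` is an injective smooth immersion -/
def IsInjImmersion {n : ℕ}
    (F : EuclideanSpace ℝ (Fin n) → EuclideanSpace ℝ (Fin n) × EuclideanSpace ℝ (Fin n)) : Prop :=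
  ContDiff ℝ ∞ F ∧ Injective F ∧ ∀ s v, fderiv ℝ F s v = 0 → v = 0

/-- `F` pulls back `dp ∧ dq` to zero -/
def IsIsotropic {n : ℕ}
    (F : EuclideanSpace ℝ (Fin n) → EuclideanSpace ℝ (Fin n) × EuclideanSpace ℝ (Fin n)) : Prop :=
  ∀ s v w, om (fderiv ℝ F s v) (fderiv ℝ F s w) = 0

/-- `Λ ⊆ ℝⁿ × ℝⁿ` is the preimage of a nonempty compact Lagrangian submanifold without boundary of
the cotangent bundle `ℝⁿ/ℤⁿ × ℝⁿ` of the torus: it is closed, invariant under the translations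
`(q, p) ↦ (q + k, p)`, bounded in `p`, and every point `z` of `Λ` is `F 0` for an injective smooth
immersion `F : ℝⁿ → ℝⁿ × ℝⁿ` which is open as a map to `Λ` and pulls back `dp ∧ dq` to zero. -/
structure IsLagrangianLift (n : ℕ) (Λ : Set (EuclideanSpace ℝ (Fin n) × EuclideanSpace ℝ (Fin n))) :
    Prop where
  closed : IsClosed Λ
  nonempty : Λ.Nonempty
  per : ∀ z ∈ Λ, ∀ k : Fin n → ℤ, (z.1 + latt k, z.2) ∈ Λ
  bdd : ∃ R : ℝ, ∀ z ∈ Λ, ‖z.2‖ ≤ R
  par : ∀ z ∈ Λ, ∃ F : EuclideanSpace ℝ (Fin n) →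
      EuclideanSpace ℝ (Fin n) × EuclideanSpace ℝ (Fin n),
    F 0 = z ∧ IsInjImmersion F ∧ IsIsotropic F ∧
    ∀ V : Set (EuclideanSpace ℝ (Fin n)), IsOpen V → ∃ U, IsOpen U ∧ F '' V = Λ ∩ U

/-- `B` is a smooth field of symmetric matrices on the torus `ℝⁿ/ℤⁿ` -/
structure IsSymmetricField {n : ℕ}
    (B : EuclideanSpace ℝ (Fin n) → EuclideanSpace ℝ (Fin n) →L[ℝ] EuclideanSpace ℝ (Fin n)) :
    Prop where
  smooth : ContDiff ℝ ∞ B
  per : ∀ q, ∀ k : Fin n → ℤ, B (q + latt k) = B q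
  symm : ∀ q v w, ⟪B q v, w⟫ = ⟪v, B q w⟫

/-- the one-sided condition on `Λ` with respect to the field `B` -/
def IsOneSided {n : ℕ} (Λ : Set (EuclideanSpace ℝ (Fin n) × EuclideanSpace ℝ (Fin n)))
    (B : EuclideanSpace ℝ (Fin n) → EuclideanSpace ℝ (Fin n) →L[ℝ] EuclideanSpace ℝ (Fin n)) :
    Prop :=
  ∃ C b δ : ℝ, 0 < b ∧ 0 < δ ∧ ∀ z ∈ Λ, ∀ z' ∈ Λ, ‖z.1 - z'.1‖ < δ →
    -C * ‖z.1 - z'.1‖ ^ 2 ≤ ⟪z.1 - z'.1, B z.1 (z.2 - z'.2)⟫ ∧
    b * ‖z.2 - z'.2‖ ≤ ‖B z.1 (z.2 - z'.2)‖ + C * ‖z.1 - z'.1‖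

/-- `ψ` and its inverse are smooth -/
def IsSmoothDiffeo {n : ℕ} (ψ : EuclideanSpace ℝ (Fin n) × EuclideanSpace ℝ (Fin n) ≃
    EuclideanSpace ℝ (Fin n) × EuclideanSpace ℝ (Fin n)) : Prop :=
  ContDiff ℝ ∞ ψ ∧ ContDiff ℝ ∞ ψ.symm

/-- `ψ` preserves the symplectic form -/
def PreservesForm {n : ℕ} (ψ : EuclideanSpace ℝ (Fin n) × EuclideanSpace ℝ (Fin n) ≃
    EuclideanSpace ℝ (Fin n) × EuclideanSpace ℝ (Fin n)) : Prop :=
  ∀ z a b, om (fderiv ℝ ψ z a) (fderiv ℝ ψ z b) = om a b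

/-- Closed Lagrangian submanifolds of the cotangent bundle of the torus which are one-sided with
respect to a smooth field of symmetric matrices are images of the zero section under symplectic
diffeomorphisms. -/
theorem result (n : ℕ) (Λ : Set (EuclideanSpace ℝ (Fin n) × EuclideanSpace ℝ (Fin n)))
    (hΛ : IsLagrangianLift n Λ)
    (B : EuclideanSpace ℝ (Fin n) → EuclideanSpace ℝ (Fin n) →L[ℝ] EuclideanSpace ℝ (Fin n))
    (hB : IsSymmetricField B) (hC : IsOneSided Λ B) :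
    ∃ ψ : EuclideanSpace ℝ (Fin n) × EuclideanSpace ℝ (Fin n) ≃
        EuclideanSpace ℝ (Fin n) × EuclideanSpace ℝ (Fin n),
      IsSmoothDiffeo ψ ∧ PreservesForm ψ ∧
      (∀ z k, ψ (z.1 + latt k, z.2) = ((ψ z).1 + latt k, (ψ z).2)) ∧
      ψ '' {z | z.2 = 0} = Λ := by
  obtain ⟨C, b, δ, hb, hδ, hC⟩ := hC
  obtain ⟨ψ, h1, h2, h3, h4, h5⟩ := Pool.Agent.Y522.ML.var
    ⟨hΛ.closed, hΛ.nonempty, hΛ.per, hΛ.bdd, fun z hz => by
      obtain ⟨F, f1, ⟨f2, f3, f4⟩, f5, f6⟩ := hΛ.par z hz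
      exact ⟨F, f2, f1, f3, f6, f4, f5⟩⟩ B hB.smooth hB.per hB.symm hb hδ hC
  exact ⟨ψ, ⟨h1, h2⟩, h4, h3, h5⟩

end Pool.Agent.Results.MP_3dbb84_gt.LocallyOneSidedLagrangians
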